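import Pool.Agent.W312.TP.Stm

/-!
# Tree t-spanners of path graphs: `expand` keeps states well formed and connected
-/

set_option autoImplicit false

namespace Pool.Agent.W922.TP

open Pool.Agent.NPC Pool.Agent.H673R2 Pool.Agent.H673R2.Ts Pool.Agent.W312.TP

theorem mem_newEdges {n : ℕ} {L : List Slot} {e : ℕ × ℕ} :
    e ∈ newEdges n L ↔ ∃ (i : ℕ) (h : i < L.length),
      e = ((L[i]'h).2.1.1, n + i) ∨ e = ((L[i]'h).2.2.1, n + i) := by
  unfold newEdges
  rw [List.mem_flatMap]
  constructor
  · rintro ⟨⟨q, i⟩, hq, he⟩
    rw [List.mem_zipIdx_iff_getElem?] at hq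
    obtain ⟨h, hq⟩ := List.getElem?_eq_some_iff.1 hq
    simp only at hq h he
    refine ⟨i, h, ?_⟩
    rw [hq]
    simpa using he
  · rintro ⟨i, h, he⟩
    refine ⟨(L[i]'h, i), ?_, ?_⟩
    · rw [List.mem_zipIdx_iff_getElem?]
      exact List.getElem?_eq_getElem h
    · simpa using he

theorem nodup_newEdges {n : ℕ} {L : List Slot} (h : ∀ q ∈ L, q.2.1.1 ≠ q.2.2.1) :
    (newEdges n L).Nodup := by
  unfold newEdges
  rw [List.nodup_flatMap]
  constructor
  · rintro ⟨q, i⟩ hq
    have hqL : q ∈ L := by
      rw [List.mem_zipIdx_iff_getElem?] at hq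
      exact List.mem_of_getElem? hq
    simp only [List.nodup_cons, List.mem_singleton, Prod.mk.injEq, and_true, List.not_mem_nil,
      not_false_eq_true, List.nodup_nil]
    exact h q hqL
  · rw [List.pairwise_iff_getElem]
    intro i j hi hj hij
    simp only [Function.onFun, List.getElem_zipIdx]
    rw [List.disjoint_left]
    intro e he he'
    simp only [List.mem_cons, List.not_mem_nil, or_false] at he he'
    have h1 : e.2 = n + (0 + i) := by rcases he with rfl | rfl <;> rfl
    have h2 : e.2 = n + (0 + j) := by rcases he' with rfl | rfl <;> rfl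
    omega

theorem proof_EXPOK : Pool.Agent.W312.TP.EXPOK := by
  rintro ⟨n, N, E, L⟩ ⟨hE, hlt, hsl⟩
  simp only at hE hlt hsl
  have hab : ∀ q ∈ L, q.2.1.1 < n ∧ q.2.2.1 < n ∧ q.2.1.1 ≠ q.2.2.1 := by
    intro q hq
    rcases hsl q hq with h | h
    · have := hlt _ h
      simp only at this
      omega
    · have := hlt _ h
      simp only at this
      omega
  refine ⟨⟨?_, ?_, ?_⟩, ?_⟩
  · -- no repetition
    show (E ++ newEdges n L).Nodup
    rw [List.nodup_append]
    refine ⟨hE, nodup_newEdges fun q hq => (hab q hq).2.2, ?_⟩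
    intro e he e' he' hee
    subst hee
    have h1 := hlt e he
    rw [mem_newEdges] at he'
    obtain ⟨i, h, he' | he'⟩ := he' <;> rw [he'] at h1 <;> simp only at h1 <;> omega
  · show ∀ e ∈ E ++ newEdges n L, e.1 < e.2 ∧ e.2 < n + L.length
    intro e he
    rw [List.mem_append] at he
    rcases he with he | he
    · have := hlt e he
      omega
    · rw [mem_newEdges] at he
      obtain ⟨i, h, he⟩ := he
      have h1 := hab _ (List.getElem_mem h)
      rcases he with he | he <;> rw [he] <;> simp only <;> omega
  · show ∀ q ∈ newSlots n N L, (q.2.1.1, q.2.2.1) ∈ E ++ newEdges n L ∨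
      (q.2.2.1, q.2.1.1) ∈ E ++ newEdges n L
    intro q hq
    unfold newSlots at hq
    rw [List.mem_flatMap] at hq
    obtain ⟨⟨p, i⟩, hp, hq⟩ := hq
    rw [List.mem_zipIdx_iff_getElem?] at hp
    obtain ⟨h, hp⟩ := List.getElem?_eq_some_iff.1 hp
    simp only at h hp hq
    simp only [List.mem_cons, List.not_mem_nil, or_false] at hq
    rcases hq with rfl | rfl
    · left
      rw [List.mem_append, mem_newEdges]
      right
      refine ⟨i, h, Or.inl ?_⟩
      rw [hp]
    · right
      rw [List.mem_append, mem_newEdges]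
      right
      refine ⟨i, h, Or.inr ?_⟩
      rw [hp]
  · intro hc
    have hadj : ∀ x y : Fin (n + L.length), x ≠ y → ((x : ℕ), (y : ℕ)) ∈ E ++ newEdges n L →
        (graphOf (instSt (expand (n, N, E, L)))).Adj x y := by
      intro x y hxy h
      exact (SimpleGraph.fromRel_adj _ _ _).2 ⟨hxy, Or.inl h⟩
    -- old vertices
    let φ : Fin n → Fin (n + L.length) := fun x => ⟨x.1, by omega⟩
    have hmap : ∀ x y : Fin n, (graphOf (instSt (n, N, E, L))).Adj x y →
        (graphOf (instSt (expand (n, N, E, L)))).Adj (φ x) (φ y) := by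
      intro x y h
      have h' := (SimpleGraph.fromRel_adj _ _ _).1 h
      obtain ⟨hne, h1⟩ := h'
      have hne' : φ x ≠ φ y := by
        intro he
        apply hne
        have := congrArg Fin.val he
        exact Fin.ext this
      rcases h1 with h1 | h1
      · exact hadj _ _ hne' (List.mem_append_left _ h1)
      · exact (hadj _ _ hne'.symm (List.mem_append_left _ h1)).symm
    have hreach : ∀ x y : Fin n,
        (graphOf (instSt (expand (n, N, E, L)))).Reachable (φ x) (φ y) := by
      intro x y
      have h := hc.preconnected x y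
      exact h.map ⟨φ, fun {a b} hab' => hmap a b hab'⟩
    have hold : ∀ v : Fin (n + L.length), ∃ x : Fin n,
        (graphOf (instSt (expand (n, N, E, L)))).Reachable v (φ x) := by
      intro v
      rcases lt_or_ge v.1 n with h | h
      · exact ⟨⟨v.1, h⟩, SimpleGraph.Reachable.refl _⟩
      · have hi : v.1 - n < L.length := by have := v.2; omega
        have h1 := hab _ (List.getElem_mem hi)
        refine ⟨⟨(L[v.1 - n]'hi).2.1.1, h1.1⟩, ?_⟩
        apply SimpleGraph.Reachable.symm
        apply SimpleGraph.Adj.reachable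
        apply hadj
        · intro he
          have := congrArg Fin.val he
          simp only [φ] at this
          omega
        · rw [List.mem_append, mem_newEdges]
          right
          refine ⟨v.1 - n, hi, Or.inl ?_⟩
          simp only [φ, Prod.mk.injEq, true_and]
          omega
    have hne : Nonempty (Fin n) := hc.nonempty
    obtain ⟨x0⟩ := hne
    have : Nonempty (Fin (instSt (expand (n, N, E, L))).1) := ⟨φ x0⟩
    refine SimpleGraph.Connected.mk ?_
    intro u v
    obtain ⟨x, hx⟩ := hold u
    obtain ⟨y, hy⟩ := hold v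
    exact (hx.trans (hreach x y)).trans hy.symm

end Pool.Agent.W922.TP
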